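import Pool.Agent.Helper99_TwinIdx.Twin
import Pool.Agent.Common_PNT.PNT

set_option autoImplicit false

/-!
Counting the two sets of indices.
-/

namespace Pool.Agent.Helper99_TwinIdx

open Finset Filter

/-- `k <= K` with `6k-1, 6k+1` both prime -/
def fA (K : ℕ) : Finset ℕ :=
  (range (K + 1)).filter (fun k => 0 < k ∧ (6 * k - 1).Prime ∧ (6 * k + 1).Prime)

/-- `m <= M` with `p_m + 2` prime -/
noncomputable def fB (M : ℕ) : Finset ℕ :=
  (range (M + 1)).filter (fun m => 0 < m ∧ (Nat.nth Nat.Prime (m - 1) + 2).Prime)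

theorem a_large : ∃ C : ℝ, 0 < C ∧ ∃ K : ℕ, ∀ k ≥ K,
    ((fA k).card : ℝ) ≤ C * k / (Real.log k) ^ 2 := by
  obtain ⟨C, hC, K, hK⟩ := twin_large
  refine ⟨6 * C, by positivity, max K 2, ?_⟩
  intro k hk
  have hkK : K ≤ k := le_trans (le_max_left _ _) hk
  have hk2 : 2 ≤ k := le_trans (le_max_right _ _) hk
  have h1 := hK (6 * k) (by omega)
  have h2 : (fA k).card ≤ ((range (6 * k + 1)).filter (fun n => n.Prime ∧ (n + 2).Prime)).card := by
    apply Finset.card_le_card_of_injOn (fun k => 6 * k - 1)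
    · intro j hj
      have hj' := Finset.mem_filter.1 (Finset.mem_coe.1 hj)
      obtain ⟨hj1, hj2, hj3, hj4⟩ := hj'
      rw [Finset.mem_range] at hj1
      apply Finset.mem_coe.2
      apply Finset.mem_filter.2
      refine ⟨Finset.mem_range.2 (by show 6 * j - 1 < 6 * k + 1; omega), hj3, ?_⟩
      have : 6 * j - 1 + 2 = 6 * j + 1 := by omega
      simp only [this]
      exact hj4
    · intro i hi j hj hij
      have hi' := (Finset.mem_filter.1 (Finset.mem_coe.1 hi)).2.1
      have hj' := (Finset.mem_filter.1 (Finset.mem_coe.1 hj)).2.1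
      simp only at hij
      omega
  have h3 : ((fA k).card : ℝ) ≤ C * (6 * k : ℕ) / (Real.log (6 * k : ℕ)) ^ 2 :=
    le_trans (by exact_mod_cast h2) h1
  refine h3.trans ?_
  have hk0 : (1:ℝ) < k := by exact_mod_cast (by omega : 1 < k)
  have hl : 0 < Real.log k := Real.log_pos hk0
  have hl2 : Real.log k ≤ Real.log (6 * k : ℕ) := by
    apply Real.log_le_log (by linarith)
    push_cast
    linarith
  have h4 : (Real.log k) ^ 2 ≤ (Real.log (6 * k : ℕ)) ^ 2 := pow_le_pow_left₀ hl.le hl2 2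
  have h5 : C * (6 * k : ℕ) / (Real.log (6 * k : ℕ)) ^ 2 ≤ C * (6 * k : ℕ) / (Real.log k) ^ 2 := by
    apply div_le_div_of_nonneg_left (by positivity) (by positivity) h4
  refine h5.trans (le_of_eq ?_)
  push_cast
  ring

/-- `p_M <= 4 M log M` for large `M` -/
theorem nth_le : ∀ᶠ M : ℕ in atTop,
    Nat.nth Nat.Prime (M - 1) ≤ ⌊4 * (M : ℝ) * Real.log M⌋₊ := by
  have h1 : Tendsto (fun M : ℕ => 4 * (M : ℝ) * Real.log M) atTop atTop := by
    apply Tendsto.atTop_mul_atTop₀
    · exact Tendsto.const_mul_atTop (by norm_num) tendsto_natCast_atTop_atTop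
    · exact Real.tendsto_log_atTop.comp tendsto_natCast_atTop_atTop
  have h2 := (Pool.Agent.Common_PNT.tendsto_primeCounting.comp h1).eventually
    (eventually_gt_nhds (show (1/2 : ℝ) < 1 by norm_num))
  have h3 : ∀ᶠ M : ℕ in atTop, 4 * Real.log (M : ℝ) ≤ M := by
    have := (Real.isLittleO_log_id_atTop.comp_tendsto
      (tendsto_natCast_atTop_atTop (R := ℝ))).bound (show (0:ℝ) < 1/4 by norm_num)
    filter_upwards [this, eventually_ge_atTop 1] with M hM hM1
    simp only [Function.comp, id, Real.norm_eq_abs, Nat.abs_cast] at hM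
    have h4 : Real.log (M : ℝ) ≤ |Real.log (M : ℝ)| := le_abs_self _
    linarith
  filter_upwards [h2, h3, eventually_ge_atTop 3] with M hM h4 hM3
  have hM3r : (3:ℝ) ≤ M := by exact_mod_cast hM3
  have hl1 : 1 < Real.log M := by
    have h5 : Real.exp 1 < M := by linarith [Real.exp_one_lt_d9]
    exact (Real.lt_log_iff_exp_lt (by linarith)).2 h5
  set x : ℝ := 4 * (M : ℝ) * Real.log M with hx
  have hxM : (M : ℝ) < x := by rw [hx]; nlinarith
  have hx0 : 0 < x := by linarith
  have hlx : Real.log x ≤ 2 * Real.log M := by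
    rw [two_mul, ← Real.log_mul (by positivity) (by positivity)]
    apply Real.log_le_log hx0
    rw [hx]
    nlinarith
  have hlx0 : 0 < Real.log x := Real.log_pos (by linarith)
  have h6 : (M : ℝ) < (Nat.primeCounting ⌊x⌋₊ : ℝ) := by
    have h7 : (1/2 : ℝ) < (Nat.primeCounting ⌊x⌋₊ : ℝ) / (x / Real.log x) := hM
    rw [lt_div_iff₀ (by positivity)] at h7
    refine lt_of_le_of_lt ?_ h7
    rw [← mul_div_assoc, le_div_iff₀ hlx0]
    calc (M : ℝ) * Real.log x ≤ M * (2 * Real.log M) :=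
          mul_le_mul_of_nonneg_left hlx (by positivity)
      _ = 1 / 2 * x := by rw [hx]; ring
  have h7 : M < Nat.primeCounting ⌊x⌋₊ := by exact_mod_cast h6
  have h8 : Nat.nth Nat.Prime (M - 1) < ⌊x⌋₊ + 1 := by
    apply Nat.nth_lt_of_lt_count
    have : Nat.primeCounting ⌊x⌋₊ = Nat.count Nat.Prime (⌊x⌋₊ + 1) := rfl
    omega
  omega

theorem b_large : ∃ C : ℝ, 0 < C ∧ ∃ K : ℕ, ∀ M ≥ K,
    ((fB M).card : ℝ) ≤ C * M / Real.log M := by
  obtain ⟨C, hC, K, hK⟩ := twin_large
  obtain ⟨K1, hK1⟩ := eventually_atTop.1 nth_le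
  refine ⟨4 * C, by positivity, max (max K K1) 3, ?_⟩
  intro M hM
  have hMK : K ≤ M := le_trans (le_trans (le_max_left _ _) (le_max_left _ _)) hM
  have hMK1 : K1 ≤ M := le_trans (le_trans (le_max_right _ _) (le_max_left _ _)) hM
  have hM3 : 3 ≤ M := le_trans (le_max_right _ _) hM
  have hM3r : (3:ℝ) ≤ M := by exact_mod_cast hM3
  have hl1 : 1 < Real.log M := by
    have h5 : Real.exp 1 < M := by linarith [Real.exp_one_lt_d9]
    exact (Real.lt_log_iff_exp_lt (by linarith)).2 h5
  have hp := hK1 M hMK1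
  set X := ⌊4 * (M : ℝ) * Real.log M⌋₊ with hX
  have hXM : M ≤ X := by
    rw [hX]
    apply Nat.le_floor
    nlinarith
  have h1 := hK X (by omega)
  have h2 : (fB M).card ≤ ((range (X + 1)).filter (fun n => n.Prime ∧ (n + 2).Prime)).card := by
    apply Finset.card_le_card_of_injOn (fun m => Nat.nth Nat.Prime (m - 1))
    · intro j hj
      have hj' := Finset.mem_filter.1 (Finset.mem_coe.1 hj)
      obtain ⟨hj1, hj2, hj3⟩ := hj'
      rw [Finset.mem_range] at hj1
      apply Finset.mem_coe.2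
      apply Finset.mem_filter.2
      refine ⟨Finset.mem_range.2 ?_, Nat.prime_nth_prime _, hj3⟩
      have : Nat.nth Nat.Prime (j - 1) ≤ Nat.nth Nat.Prime (M - 1) :=
        (Nat.nth_monotone Nat.infinite_setOfPred_prime) (by omega)
      show Nat.nth Nat.Prime (j - 1) < X + 1
      omega
    · intro i hi j hj hij
      have hi' := (Finset.mem_filter.1 (Finset.mem_coe.1 hi)).2.1
      have hj' := (Finset.mem_filter.1 (Finset.mem_coe.1 hj)).2.1
      simp only at hij
      have := Nat.nth_injective Nat.infinite_setOfPred_prime hij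
      omega
  have h3 : ((fB M).card : ℝ) ≤ C * X / (Real.log X) ^ 2 :=
    le_trans (by exact_mod_cast h2) h1
  refine h3.trans ?_
  have hXM' : (M : ℝ) ≤ X := by exact_mod_cast hXM
  have hl2 : Real.log M ≤ Real.log X := Real.log_le_log (by linarith) hXM'
  have h4 : (Real.log M) ^ 2 ≤ (Real.log X) ^ 2 := pow_le_pow_left₀ (by linarith) hl2 2
  have h5 : C * (X : ℝ) / (Real.log X) ^ 2 ≤ C * X / (Real.log M) ^ 2 := by
    apply div_le_div_of_nonneg_left (by positivity) (by positivity) h4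
  have h6 : (X : ℝ) ≤ 4 * M * Real.log M := Nat.floor_le (by positivity)
  have h7 : C * (X : ℝ) / (Real.log M) ^ 2 ≤ C * (4 * M * Real.log M) / (Real.log M) ^ 2 := by
    apply div_le_div_of_nonneg_right _ (by positivity)
    exact mul_le_mul_of_nonneg_left h6 hC.le
  refine (h5.trans h7).trans (le_of_eq ?_)
  have : Real.log (M : ℝ) ≠ 0 := by linarith
  field_simp

end Pool.Agent.Helper99_TwinIdx
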