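import Pool.Agent.Helper99_TwinIdx.Counts

set_option autoImplicit false

/-!
Typical admissible decompositions.
-/

namespace Pool.Agent.Helper99_TwinIdx

open Finset Filter

/-- `n = k + m` is an admissible decomposition: `k, m >= 1`, `6k-1` and `6k+1` are prime and
`p_m + 2` is prime, `p_m` being the `m`-th prime. -/
def Adm (n k m : ℕ) : Prop :=
  0 < k ∧ 0 < m ∧ k + m = n ∧ Nat.Prime (6 * k - 1) ∧ Nat.Prime (6 * k + 1) ∧
    Nat.Prime (Nat.nth Nat.Prime (m - 1) + 2)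

lemma mem_fA {n k m N : ℕ} (h : Adm n k m) (hk : k ≤ N) : k ∈ fA N := by
  obtain ⟨h1, h2, h3, h4, h5, h6⟩ := h
  exact Finset.mem_filter.2 ⟨Finset.mem_range.2 (by omega), h1, h4, h5⟩

lemma mem_fB {n k m N : ℕ} (h : Adm n k m) (hm : m ≤ N) : m ∈ fB N := by
  obtain ⟨h1, h2, h3, h4, h5, h6⟩ := h
  exact Finset.mem_filter.2 ⟨Finset.mem_range.2 (by omega), h2, h6⟩

/-- integers `n` having an admissible decomposition with `k <= K`, `m <= M` -/
lemma card_le_mul (K M : ℕ) (E : Finset ℕ)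
    (hE : ∀ n ∈ E, ∃ k m, Adm n k m ∧ k ≤ K ∧ m ≤ M) : E.card ≤ (fA K).card * (fB M).card := by
  rw [← Finset.card_product]
  have : E ⊆ (fA K ×ˢ fB M).image (fun x => x.1 + x.2) := by
    intro n hn
    obtain ⟨k, m, h, hk, hm⟩ := hE n hn
    rw [Finset.mem_image]
    exact ⟨(k, m), Finset.mem_product.2 ⟨mem_fA h hk, mem_fB h hm⟩, h.2.2.1⟩
  exact (Finset.card_le_card this).trans Finset.card_image_le

/-- number of admissible decompositions -/
noncomputable def rr (n : ℕ) : ℕ := {km : ℕ × ℕ | Adm n km.1 km.2}.ncard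

lemma rr_eq (n N : ℕ) (hn : n ≤ N) :
    rr n = ((fA N ×ˢ fB N).filter (fun x => x.1 + x.2 = n)).card := by
  rw [rr, ← Set.ncard_coe_finset]
  congr 1
  ext ⟨k, m⟩
  simp only [Set.mem_setOf_eq, Finset.coe_filter, Finset.mem_product]
  constructor
  · intro h
    have h3 := h.2.2.1
    exact ⟨⟨mem_fA h (by omega), mem_fB h (by omega)⟩, h3⟩
  · rintro ⟨⟨h1, h2⟩, h3⟩
    obtain ⟨_, h4, h5, h6⟩ := Finset.mem_filter.1 h1
    obtain ⟨_, h7, h8⟩ := Finset.mem_filter.1 h2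
    exact ⟨h4, h7, h3, h5, h6, h8⟩

lemma sum_rr_le (N : ℕ) (E : Finset ℕ) (hE : ∀ n ∈ E, n ≤ N) :
    ∑ n ∈ E, rr n ≤ (fA N).card * (fB N).card := by
  rw [← Finset.card_product]
  calc ∑ n ∈ E, rr n = ∑ n ∈ E, ((fA N ×ˢ fB N).filter (fun x => x.1 + x.2 = n)).card :=
        Finset.sum_congr rfl (fun n hn => rr_eq n N (hE n hn))
    _ = ((fA N ×ˢ fB N).filter (fun x => x.1 + x.2 ∈ E)).card := by
        rw [← Finset.card_biUnion]
        · congr 1
          ext x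
          simp only [Finset.mem_biUnion, Finset.mem_filter]
          constructor
          · rintro ⟨n, hn, hx, rfl⟩
            exact ⟨hx, hn⟩
          · rintro ⟨hx, hn⟩
            exact ⟨_, hn, hx, rfl⟩
        · intro i _ j _ hij
          rw [Function.onFun, Finset.disjoint_left]
          intro x hx hx'
          exact hij ((Finset.mem_filter.1 hx).2.symm.trans (Finset.mem_filter.1 hx').2)
    _ ≤ (fA N ×ˢ fB N).card := Finset.card_filter_le _ _

theorem main : ∃ C : ℝ, 0 < C ∧ ∀ ε : ℝ, 0 < ε → ∃ N₀ : ℕ, ∀ N : ℕ, N₀ ≤ N →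
    ({n : ℕ | 1 ≤ n ∧ n ≤ N ∧
      ¬ ((∀ k m : ℕ, Adm n k m →
            ε / C * (Real.log N * Real.log (Real.log N) ^ 2) ≤ k ∧
            ε / C * (Real.log N ^ 2 * Real.log (Real.log N)) ≤ m) ∧
          (({km : ℕ × ℕ | Adm n km.1 km.2}.ncard : ℝ) ≤ C / ε * (N / Real.log N ^ 3)))}.ncard : ℝ)
      ≤ ε * N := by
  obtain ⟨C1, hC1, K1, hK1⟩ := a_large
  obtain ⟨C2, hC2, K2, hK2⟩ := b_large
  refine ⟨3 * (C1 * C2), by positivity, ?_⟩
  intro ε hε
  set C := 3 * (C1 * C2) with hC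
  have hC0 : 0 < C := by positivity
  have hd : 0 < ε / C := by positivity
  -- growth of the thresholds
  have hlog : Tendsto (fun N : ℕ => Real.log (N : ℝ)) atTop atTop :=
    Real.tendsto_log_atTop.comp tendsto_natCast_atTop_atTop
  have hloglog : Tendsto (fun N : ℕ => Real.log (Real.log (N : ℝ))) atTop atTop :=
    Real.tendsto_log_atTop.comp hlog
  have ev1 : ∀ᶠ N : ℕ in atTop, (max K1 K2 : ℕ) + 3 ≤ Real.log (N : ℝ) := by
    have := hlog.eventually_ge_atTop (((max K1 K2 : ℕ) : ℝ) + 3)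
    exact this
  have ev2 : ∀ᶠ N : ℕ in atTop, 2 * C / ε + 1 ≤ Real.log (Real.log (N : ℝ)) :=
    hloglog.eventually_ge_atTop _
  have ev3 : ∀ᶠ N : ℕ in atTop, max K1 K2 + 3 ≤ N := eventually_ge_atTop _
  obtain ⟨N₀, hN₀⟩ := eventually_atTop.1 ((ev1.and ev2).and ev3)
  refine ⟨N₀, ?_⟩
  intro N hN
  obtain ⟨⟨e1, e2⟩, e3⟩ := hN₀ N hN
  set L := Real.log (N : ℝ) with hL
  set LL := Real.log L with hLL
  have hL3 : 3 ≤ L := by
    have : (0:ℝ) ≤ (max K1 K2 : ℕ) := by positivity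
    linarith
  have hLL1 : 1 ≤ LL := by
    have : 0 ≤ 2 * C / ε := by positivity
    linarith
  have hNr : (3:ℝ) ≤ N := by
    have : 3 ≤ N := by omega
    exact_mod_cast this
  have hdLL : 2 ≤ ε / C * LL := by
    have h1 : 2 * C / ε ≤ LL := by linarith
    rw [div_le_iff₀ hε] at h1
    rw [div_mul_eq_mul_div, le_div_iff₀ hC0]
    linarith
  have hKL1 : (K1 : ℝ) ≤ L - 1 := by
    have : (K1 : ℝ) ≤ (max K1 K2 : ℕ) := by exact_mod_cast le_max_left _ _
    linarith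
  have hKL2 : (K2 : ℝ) ≤ L - 1 := by
    have : (K2 : ℝ) ≤ (max K1 K2 : ℕ) := by exact_mod_cast le_max_right _ _
    linarith
  -- the sizes
  have hA : ((fA N).card : ℝ) ≤ C1 * N / L ^ 2 := hK1 N (by omega)
  have hB : ((fB N).card : ℝ) ≤ C2 * N / L := hK2 N (by omega)
  set x := ε / C * (L * LL ^ 2) with hx
  set y := ε / C * (L ^ 2 * LL) with hy
  have hxL : 2 * L ≤ x := by
    have : x = (ε / C * LL) * (L * LL) := by rw [hx]; ring
    rw [this]
    have h1 : L ≤ L * LL := by nlinarith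
    calc 2 * L ≤ 2 * (L * LL) := by linarith
      _ ≤ (ε / C * LL) * (L * LL) := mul_le_mul_of_nonneg_right hdLL (by positivity)
  have hyL : 2 * L ≤ y := by
    have : y = (ε / C * LL) * (L * L) := by rw [hy]; ring
    rw [this]
    have h1 : L ≤ L * L := by nlinarith
    calc 2 * L ≤ 2 * (L * L) := by linarith
      _ ≤ (ε / C * LL) * (L * L) := mul_le_mul_of_nonneg_right hdLL (by positivity)
  have hfx : L ≤ (⌊x⌋₊ : ℝ) := by
    have := Nat.lt_floor_add_one x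
    linarith
  have hfy : L ≤ (⌊y⌋₊ : ℝ) := by
    have := Nat.lt_floor_add_one y
    linarith
  have hfx' : (⌊x⌋₊ : ℝ) ≤ x := Nat.floor_le (by linarith)
  have hfy' : (⌊y⌋₊ : ℝ) ≤ y := Nat.floor_le (by linarith)
  have hax : ((fA ⌊x⌋₊).card : ℝ) ≤ C1 * (ε / C) * L := by
    have h1 := hK1 ⌊x⌋₊ (by
      have : (K1 : ℝ) ≤ ⌊x⌋₊ := by linarith
      exact_mod_cast this)
    have h2 : LL ≤ Real.log (⌊x⌋₊ : ℝ) := Real.log_le_log (by linarith) hfx
    have h3 : LL ^ 2 ≤ Real.log (⌊x⌋₊ : ℝ) ^ 2 := pow_le_pow_left₀ (by linarith) h2 2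
    calc ((fA ⌊x⌋₊).card : ℝ) ≤ C1 * ⌊x⌋₊ / Real.log (⌊x⌋₊ : ℝ) ^ 2 := h1
      _ ≤ C1 * ⌊x⌋₊ / LL ^ 2 := div_le_div_of_nonneg_left (by positivity) (by positivity) h3
      _ ≤ C1 * x / LL ^ 2 := by
          apply div_le_div_of_nonneg_right _ (by positivity)
          exact mul_le_mul_of_nonneg_left hfx' hC1.le
      _ = C1 * (ε / C) * L := by
          rw [hx]
          field_simp
  have hby : ((fB ⌊y⌋₊).card : ℝ) ≤ C2 * (ε / C) * L ^ 2 := by
    have h1 := hK2 ⌊y⌋₊ (by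
      have : (K2 : ℝ) ≤ ⌊y⌋₊ := by linarith
      exact_mod_cast this)
    have h2 : LL ≤ Real.log (⌊y⌋₊ : ℝ) := Real.log_le_log (by linarith) hfy
    calc ((fB ⌊y⌋₊).card : ℝ) ≤ C2 * ⌊y⌋₊ / Real.log (⌊y⌋₊ : ℝ) := h1
      _ ≤ C2 * ⌊y⌋₊ / LL := div_le_div_of_nonneg_left (by positivity) (by positivity) h2
      _ ≤ C2 * y / LL := by
          apply div_le_div_of_nonneg_right _ (by positivity)
          exact mul_le_mul_of_nonneg_left hfy' hC2.le
      _ = C2 * (ε / C) * L ^ 2 := by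
          rw [hy]
          field_simp
  -- the three exceptional sets
  classical
  set E1 := (Finset.Icc 1 N).filter (fun n => ∃ k m, Adm n k m ∧ (k : ℝ) < x) with hE1
  set E2 := (Finset.Icc 1 N).filter (fun n => ∃ k m, Adm n k m ∧ (m : ℝ) < y) with hE2
  set E3 := (Finset.Icc 1 N).filter (fun n => C / ε * (N / L ^ 3) < (rr n : ℝ)) with hE3
  have hε3 : C1 * C2 * (ε / C) * N = ε * N / 3 := by
    rw [hC]
    field_simp
  have c1 : (E1.card : ℝ) ≤ ε * N / 3 := by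
    have h1 : E1.card ≤ (fA ⌊x⌋₊).card * (fB N).card := by
      apply card_le_mul
      intro n hn
      obtain ⟨hn1, k, m, hkm, hk⟩ := Finset.mem_filter.1 hn
      have hn2 := (Finset.mem_Icc.1 hn1).2
      have h3 := hkm.2.2.1
      exact ⟨k, m, hkm, Nat.le_floor hk.le, by omega⟩
    calc (E1.card : ℝ) ≤ ((fA ⌊x⌋₊).card : ℝ) * (fB N).card := by exact_mod_cast h1
      _ ≤ (C1 * (ε / C) * L) * (C2 * N / L) :=
          mul_le_mul hax hB (by positivity) (by positivity)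
      _ = C1 * C2 * (ε / C) * N := by field_simp
      _ = ε * N / 3 := hε3
  have c2 : (E2.card : ℝ) ≤ ε * N / 3 := by
    have h1 : E2.card ≤ (fA N).card * (fB ⌊y⌋₊).card := by
      apply card_le_mul
      intro n hn
      obtain ⟨hn1, k, m, hkm, hk⟩ := Finset.mem_filter.1 hn
      have hn2 := (Finset.mem_Icc.1 hn1).2
      have h3 := hkm.2.2.1
      exact ⟨k, m, hkm, by omega, Nat.le_floor hk.le⟩
    calc (E2.card : ℝ) ≤ ((fA N).card : ℝ) * (fB ⌊y⌋₊).card := by exact_mod_cast h1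
      _ ≤ (C1 * N / L ^ 2) * (C2 * (ε / C) * L ^ 2) :=
          mul_le_mul hA hby (by positivity) (by positivity)
      _ = C1 * C2 * (ε / C) * N := by field_simp
      _ = ε * N / 3 := hε3
  have c3 : (E3.card : ℝ) ≤ ε * N / 3 := by
    have h1 : ∑ n ∈ E3, rr n ≤ (fA N).card * (fB N).card :=
      sum_rr_le N E3 (fun n hn => (Finset.mem_Icc.1 (Finset.mem_filter.1 hn).1).2)
    have h2 : (E3.card : ℝ) * (C / ε * (N / L ^ 3)) ≤ ∑ n ∈ E3, (rr n : ℝ) := by
      rw [← nsmul_eq_mul]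
      apply Finset.card_nsmul_le_sum
      intro n hn
      exact (Finset.mem_filter.1 hn).2.le
    have h3 : (∑ n ∈ E3, (rr n : ℝ)) ≤ (C1 * N / L ^ 2) * (C2 * N / L) := by
      have h4 : (∑ n ∈ E3, (rr n : ℝ)) ≤ ((fA N).card : ℝ) * (fB N).card := by exact_mod_cast h1
      exact h4.trans (mul_le_mul hA hB (by positivity) (by positivity))
    have h5 := h2.trans h3
    have hpos : 0 < C / ε * (N / L ^ 3) := by positivity
    rw [← le_div_iff₀ hpos] at h5
    refine h5.trans (le_of_eq ?_)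
    rw [← hε3]
    field_simp
  have hsub : {n : ℕ | 1 ≤ n ∧ n ≤ N ∧
      ¬ ((∀ k m : ℕ, Adm n k m → x ≤ k ∧ y ≤ m) ∧
          (({km : ℕ × ℕ | Adm n km.1 km.2}.ncard : ℝ) ≤ C / ε * (N / L ^ 3)))}
      ⊆ ((E1 ∪ (E2 ∪ E3) : Finset ℕ) : Set ℕ) := by
    rintro n ⟨h1, h2, h3⟩
    rw [Finset.mem_coe, Finset.mem_union, Finset.mem_union]
    by_cases g1 : n ∈ E1
    · left; exact g1
    by_cases g2 : n ∈ E2
    · right; left; exact g2
    right; right
    rw [hE3, Finset.mem_filter]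
    refine ⟨Finset.mem_Icc.2 ⟨h1, h2⟩, ?_⟩
    by_contra g3
    apply h3
    refine ⟨?_, not_lt.1 g3⟩
    intro k m hkm
    constructor
    · by_contra hlt
      exact g1 (Finset.mem_filter.2 ⟨Finset.mem_Icc.2 ⟨h1, h2⟩, k, m, hkm, not_le.1 hlt⟩)
    · by_contra hlt
      exact g2 (Finset.mem_filter.2 ⟨Finset.mem_Icc.2 ⟨h1, h2⟩, k, m, hkm, not_le.1 hlt⟩)
  have hfin := Set.ncard_le_ncard hsub (Finset.finite_toSet _)
  rw [Set.ncard_coe_finset] at hfin
  have hu1 := Finset.card_union_le E1 (E2 ∪ E3)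
  have hu2 := Finset.card_union_le E2 E3
  have hfin' := hfin.trans (hu1.trans (Nat.add_le_add_left hu2 _))
  have hfin'' : ({n : ℕ | 1 ≤ n ∧ n ≤ N ∧
      ¬ ((∀ k m : ℕ, Adm n k m → x ≤ k ∧ y ≤ m) ∧
          (({km : ℕ × ℕ | Adm n km.1 km.2}.ncard : ℝ) ≤ C / ε * (N / L ^ 3)))}.ncard : ℝ)
      ≤ (E1.card : ℝ) + ((E2.card : ℝ) + E3.card) := by
    exact_mod_cast hfin'
  linarith

end Pool.Agent.Helper99_TwinIdx
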