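import Pool.Agent.Helper99_TwinIdx.Main

set_option autoImplicit false

/-!
Consequences of Q1 for the residues of the indices of twin primes.
-/

namespace Pool.Agent.Helper99_TwinIdx

open Finset Filter

/-- `m <= N` with `p_m + 2` prime and `r - m` in a residue class mod `W` allowed for `k` -/
def sB (W : ℕ) (r : ℤ) (N : ℕ) : Set ℕ :=
  {m : ℕ | 0 < m ∧ m ≤ N ∧ Nat.Prime (Nat.nth Nat.Prime (m - 1) + 2) ∧
    Int.gcd (36 * (r - m) ^ 2 - 1) W = 1}

/-- `k <= N` with `6k-1, 6k+1` prime -/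
def sA (N : ℕ) : Set ℕ :=
  {k : ℕ | 0 < k ∧ k ≤ N ∧ Nat.Prime (6 * k - 1) ∧ Nat.Prime (6 * k + 1)}

lemma sA_eq (N : ℕ) : sA N = ↑(fA N) := by
  ext k
  simp only [sA, fA, Finset.coe_filter, Finset.mem_range, Set.mem_setOf_eq]
  constructor
  · rintro ⟨h1, h2, h3, h4⟩; exact ⟨by omega, h1, h3, h4⟩
  · rintro ⟨h1, h2, h3, h4⟩; exact ⟨h2, by omega, h3, h4⟩

lemma sB_sub (W : ℕ) (r : ℤ) (N : ℕ) : sB W r N ⊆ ↑(fB N) := by
  intro m hm
  obtain ⟨h1, h2, h3, _⟩ := hm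
  exact Finset.mem_coe.2 (Finset.mem_filter.2 ⟨Finset.mem_range.2 (by omega), h1, h3⟩)

lemma gcd_allowed {n k m W : ℕ} {r : ℤ} (h : Adm n k m) (hk : W < k) (hW : 0 < W)
    (hn : (n : ℤ) ≡ r [ZMOD W]) : Int.gcd (36 * (r - m) ^ 2 - 1) W = 1 := by
  obtain ⟨h1, h2, h3, h4, h5, h6⟩ := h
  have c1 : Nat.Coprime (6 * k - 1) W := by
    rw [Nat.Prime.coprime_iff_not_dvd h4]
    intro hd
    have := Nat.le_of_dvd hW hd
    omega
  have c2 : Nat.Coprime (6 * k + 1) W := by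
    rw [Nat.Prime.coprime_iff_not_dvd h5]
    intro hd
    have := Nat.le_of_dvd hW hd
    omega
  have c3 : IsCoprime (((6 * k - 1 : ℕ) : ℤ)) (W : ℤ) := Nat.isCoprime_iff_coprime.2 c1
  have c4 : IsCoprime (((6 * k + 1 : ℕ) : ℤ)) (W : ℤ) := Nat.isCoprime_iff_coprime.2 c2
  have c5 := c3.mul_left c4
  have e1 : (((6 * k - 1 : ℕ) : ℤ)) * (((6 * k + 1 : ℕ) : ℤ)) = 36 * (k : ℤ) ^ 2 - 1 := by
    rw [Nat.cast_sub (by omega)]
    push_cast
    ring
  rw [e1] at c5
  have hkm : (k : ℤ) = n - m := by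
    have : (n : ℤ) = k + m := by exact_mod_cast h3.symm
    linarith
  obtain ⟨t, ht⟩ := (Int.modEq_iff_dvd.1 hn)
  -- r - n = W t
  have e2 : 36 * (r - m) ^ 2 - 1 = (36 * (k : ℤ) ^ 2 - 1) + (W : ℤ) * (36 * t * ((r - m) + k)) := by
    have : r = n + W * t := by linarith
    rw [hkm, this]
    ring
  rw [← Int.isCoprime_iff_gcd_eq_one, e2]
  exact (IsCoprime.add_mul_left_left_iff).2 c5

lemma count_le (hQ : ∀ n : ℕ, 2 < n → ∃ k m : ℕ, Adm n k m) (W : ℕ) (hW : 0 < W) (r : ℤ) (N : ℕ) :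
    ((Finset.Icc 3 N).filter (fun n : ℕ => (n : ℤ) ≡ r [ZMOD W])).card
      ≤ W * (fB N).card + (sA N).ncard * (sB W r N).ncard := by
  classical
  have hfin : (sB W r N).Finite := (Finset.finite_toSet _).subset (sB_sub W r N)
  set F := hfin.toFinset with hF
  have hFc : (sB W r N).ncard = F.card := Set.ncard_eq_toFinset_card _ hfin
  rw [hFc, sA_eq, Set.ncard_coe_finset]
  have hsub : (Finset.Icc 3 N).filter (fun n : ℕ => (n : ℤ) ≡ r [ZMOD W]) ⊆
      ((Finset.Icc 1 W) ×ˢ fB N).image (fun x => x.1 + x.2) ∪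
        (fA N ×ˢ F).image (fun x => x.1 + x.2) := by
    intro n hn
    rw [Finset.mem_filter, Finset.mem_Icc] at hn
    obtain ⟨⟨h3, hnN⟩, hr⟩ := hn
    obtain ⟨k, m, hkm⟩ := hQ n (by omega)
    have hs := hkm.2.2.1
    have hk0 := hkm.1
    have hm0 := hkm.2.1
    rw [Finset.mem_union, Finset.mem_image, Finset.mem_image]
    by_cases hk : k ≤ W
    · left
      exact ⟨(k, m), Finset.mem_product.2 ⟨Finset.mem_Icc.2 ⟨hk0, hk⟩, mem_fB hkm (by omega)⟩, hs⟩
    · right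
      refine ⟨(k, m), Finset.mem_product.2 ⟨mem_fA hkm (by omega), ?_⟩, hs⟩
      rw [hF, Set.Finite.mem_toFinset]
      exact ⟨hm0, by omega, hkm.2.2.2.2.2, gcd_allowed hkm (by omega) hW hr⟩
  refine (Finset.card_le_card hsub).trans ((Finset.card_union_le _ _).trans ?_)
  apply Nat.add_le_add
  · refine Finset.card_image_le.trans ?_
    rw [Finset.card_product, Nat.card_Icc]
    simp
  · refine Finset.card_image_le.trans ?_
    rw [Finset.card_product]

lemma card_class (W : ℕ) (hW : 0 < W) (r : ℤ) (N : ℕ) :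
    (N : ℝ) / W - 4 ≤
      (((Finset.Icc 3 N).filter (fun n : ℕ => (n : ℤ) ≡ r [ZMOD W])).card : ℝ) := by
  have h1 := Pool.Agent.Common_Sieve.abs_card_modEq_sub_le 0 N W hW r
  have h2 : ((Finset.Ioc (0:ℤ) (0 + N)).filter (fun n => n ≡ r [ZMOD W])).card
      ≤ ((Finset.Icc 3 N).filter (fun n : ℕ => (n : ℤ) ≡ r [ZMOD W])).card + 2 := by
    have h3 : (Finset.Ioc (0:ℤ) (0 + N)).filter (fun n => n ≡ r [ZMOD W]) ⊆
        (((Finset.Icc 3 N).filter (fun n : ℕ => (n : ℤ) ≡ r [ZMOD W])).image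
          (fun n : ℕ => (n : ℤ))) ∪ {1, 2} := by
      intro x hx
      rw [Finset.mem_filter, Finset.mem_Ioc] at hx
      obtain ⟨⟨hx1, hx2⟩, hx3⟩ := hx
      rw [Finset.mem_union, Finset.mem_image]
      by_cases h : 3 ≤ x
      · left
        refine ⟨x.toNat, ?_, by omega⟩
        rw [Finset.mem_filter, Finset.mem_Icc]
        have : ((x.toNat : ℕ) : ℤ) = x := by omega
        rw [this]
        exact ⟨⟨by omega, by omega⟩, hx3⟩
      · right
        have : x = 1 ∨ x = 2 := by omega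
        simpa using this
    refine (Finset.card_le_card h3).trans ((Finset.card_union_le _ _).trans ?_)
    apply Nat.add_le_add Finset.card_image_le
    exact Finset.card_le_two
  have h4 := (abs_le.1 h1).1
  have h5 : ((((Finset.Ioc (0:ℤ) (0 + N)).filter (fun n => n ≡ r [ZMOD W])).card : ℕ) : ℝ)
      ≤ (((Finset.Icc 3 N).filter (fun n : ℕ => (n : ℤ) ≡ r [ZMOD W])).card : ℝ) + 2 := by
    exact_mod_cast h2
  linarith

theorem residues_main : ∃ c : ℝ, 0 < c ∧ ((∀ n : ℕ, 2 < n → ∃ k m : ℕ, Adm n k m) →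
    ∀ W : ℕ, 0 < W → ∀ r : ℤ, ∀ δ : ℝ, 0 < δ → ∃ N₀ : ℕ, ∀ N : ℕ, N₀ ≤ N →
      (1 / W - δ) * N ≤ ((sA N).ncard : ℝ) * (sB W r N).ncard ∧
      c / W * Real.log N ^ 2 ≤ ((sB W r N).ncard : ℝ)) := by
  obtain ⟨C1, hC1, K1, hK1⟩ := a_large
  obtain ⟨C2, hC2, K2, hK2⟩ := b_large
  refine ⟨1 / (2 * C1), by positivity, ?_⟩
  intro hQ W hW r
  have hWr : (0:ℝ) < W := by exact_mod_cast hW
  have key : ∀ δ : ℝ, 0 < δ → ∃ N₀ : ℕ, ∀ N : ℕ, N₀ ≤ N →
      (1 / W - δ) * N ≤ ((sA N).ncard : ℝ) * (sB W r N).ncard := by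
    intro δ hδ
    have hlog : Tendsto (fun N : ℕ => Real.log (N : ℝ)) atTop atTop :=
      Real.tendsto_log_atTop.comp tendsto_natCast_atTop_atTop
    obtain ⟨N₀, hN₀⟩ := eventually_atTop.1 (((hlog.eventually_ge_atTop (2 * W * C2 / δ + 1)).and
      (eventually_ge_atTop (K2 + 3))).and
        (tendsto_natCast_atTop_atTop.eventually_ge_atTop (8 / δ)))
    refine ⟨N₀, ?_⟩
    intro N hN
    obtain ⟨⟨e1, e2⟩, e3⟩ := hN₀ N hN
    have h1 := count_le hQ W hW r N
    have h2 := card_class W hW r N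
    have h3 : ((fB N).card : ℝ) ≤ C2 * N / Real.log N := hK2 N (by omega)
    have hN0 : (0:ℝ) < N := by exact_mod_cast (by omega : 0 < N)
    have hL0 : 0 < Real.log N := by
      have : 0 ≤ 2 * W * C2 / δ := by positivity
      linarith
    have h4 : (W : ℝ) * (fB N).card ≤ δ / 2 * N := by
      calc (W : ℝ) * (fB N).card ≤ W * (C2 * N / Real.log N) :=
            mul_le_mul_of_nonneg_left h3 hWr.le
        _ = (2 * W * C2) * N / (2 * Real.log N) := by field_simp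
        _ ≤ (δ * Real.log N) * N / (2 * Real.log N) := by
            apply div_le_div_of_nonneg_right _ (by positivity)
            apply mul_le_mul_of_nonneg_right _ hN0.le
            have h5 : 2 * W * C2 / δ ≤ Real.log N := by linarith
            rw [div_le_iff₀ hδ] at h5
            linarith
        _ = δ / 2 * N := by field_simp
    have h6 : (4:ℝ) ≤ δ / 2 * N := by
      rw [div_le_iff₀ hδ] at e3
      linarith
    have h7 : ((((Finset.Icc 3 N).filter (fun n : ℕ => (n : ℤ) ≡ r [ZMOD W])).card : ℕ) : ℝ)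
        ≤ (W : ℝ) * (fB N).card + ((sA N).ncard : ℝ) * (sB W r N).ncard := by
      exact_mod_cast h1
    have h8 : (1 / (W:ℝ) - δ) * N = N / W - δ * N := by ring
    rw [h8]
    linarith
  intro δ hδ
  obtain ⟨N1, hN1⟩ := key δ hδ
  obtain ⟨N2, hN2⟩ := key (1 / (2 * W)) (by positivity)
  refine ⟨max (max N1 N2) (K1 + 3), ?_⟩
  intro N hN
  have g1 : N1 ≤ N := le_trans (le_trans (le_max_left _ _) (le_max_left _ _)) hN
  have g2 : N2 ≤ N := le_trans (le_trans (le_max_right _ _) (le_max_left _ _)) hN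
  have g3 : K1 + 3 ≤ N := le_trans (le_max_right _ _) hN
  refine ⟨hN1 N g1, ?_⟩
  have h1 := hN2 N g2
  have h2 : ((sA N).ncard : ℝ) ≤ C1 * N / Real.log N ^ 2 := by
    rw [sA_eq, Set.ncard_coe_finset]
    exact hK1 N (by omega)
  have hN0 : (1:ℝ) < N := by exact_mod_cast (by omega : 1 < N)
  have hL0 : 0 < Real.log N := Real.log_pos hN0
  have h3 : (1 / (W:ℝ) - 1 / (2 * W)) * N = N / (2 * W) := by
    field_simp
    ring
  rw [h3] at h1
  have h4 : (N : ℝ) / (2 * W) ≤ C1 * N / Real.log N ^ 2 * (sB W r N).ncard :=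
    h1.trans (mul_le_mul_of_nonneg_right h2 (by positivity))
  have h5 : C1 * N / Real.log N ^ 2 * (sB W r N).ncard
      = (C1 * (sB W r N).ncard) * (N / Real.log N ^ 2) := by ring
  have h6 : (N : ℝ) / (2 * W) = (Real.log N ^ 2 / (2 * W)) * (N / Real.log N ^ 2) := by
    field_simp
  rw [h5, h6] at h4
  have h7 := le_of_mul_le_mul_right h4 (by positivity)
  have h8 : 1 / (2 * C1) / W * Real.log N ^ 2 = (Real.log N ^ 2 / (2 * W)) / C1 := by
    field_simp
  rw [h8, div_le_iff₀ hC1]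
  linarith

end Pool.Agent.Helper99_TwinIdx
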