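import Pool.Agent.Common_Sieve.Primes

set_option autoImplicit false
set_option exponentiation.threshold 1000

/-!
Upper bound for the number of twin primes.
-/

namespace Pool.Agent.Helper99_TwinIdx

open Finset Pool.Agent.Common_Sieve

/-- Brun's upper bound for twin primes, for large `k`. -/
theorem twin_large : ∃ C : ℝ, 0 < C ∧ ∃ K : ℕ, ∀ k ≥ K,
    (((range (k + 1)).filter (fun n => n.Prime ∧ (n + 2).Prime)).card : ℝ)
      ≤ C * k / (Real.log k) ^ 2 := by
  set P0 := 3 with hP0
  set c0 := ∏ p ∈ P0.primesBelow, (1 - (1:ℝ) / p) with hc0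
  have hc0pos : 0 < c0 := Finset.prod_pos (fun p hp =>
    one_sub_inv_pos (Nat.prime_of_mem_primesBelow hp))
  obtain ⟨K, hK⟩ := (tendsto_lev.eventually_ge_atTop 101).exists_forall_of_atTop
  refine ⟨3 * (1200 / c0) ^ 2 + 48, by positivity, K, ?_⟩
  intro k hk
  have hw : 101 ≤ lev k := hK k hk
  set w := lev k with hwdef
  have hw600 := lev_pow_le k
  rw [← hwdef] at hw600
  have hk0 : 0 < k := (pow_pos (show 0 < w by omega) 600).trans_le hw600
  have hk1 : 1 < k := by
    have h1 : w ^ 2 ≤ w ^ 600 := Nat.pow_le_pow_right (by omega) (by norm_num)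
    nlinarith
  set S := (range w).filter (fun p => p.Prime ∧ P0 ≤ p) with hS
  have hSp : ∀ p ∈ S, p.Prime ∧ p < w := by
    intro p hp
    rw [hS, Finset.mem_filter, Finset.mem_range] at hp
    exact ⟨hp.2.1, hp.1⟩
  have hSP : ∀ p ∈ S, 3 ≤ p := fun p hp => (Finset.mem_filter.1 hp).2.2
  have hnd : ∀ p ∈ S, ∀ E : ℤ, E ≠ 0 → E.natAbs < 3 → ¬ (p : ℤ) ∣ E := by
    intro p hp E hE hEP hd
    have h1 := Int.natAbs_dvd_natAbs.2 hd
    rw [Int.natAbs_natCast] at h1
    have h2 := Nat.le_of_dvd (Int.natAbs_pos.2 hE) h1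
    have h3 := hSP p hp
    omega
  have hsieve := sieve_two (z := w) (by omega) hSp (fun p hp => hSP p hp)
    1 0 1 2
    (fun p hp => hnd p hp 1 one_ne_zero (by norm_num))
    (fun p hp => hnd p hp 1 one_ne_zero (by norm_num))
    (fun p hp => hnd p hp (1 * 2 - 1 * 0) (by norm_num) (by norm_num)) 0 k 31
  set T := (range (k + 1)).filter (fun n => n.Prime ∧ (n + 2).Prime) with hT
  set T1 := T.filter (fun n : ℕ => n < w) with hT1
  set T3 := T.filter (fun n : ℕ => w ≤ n) with hT3
  have hTsub : T ⊆ T1 ∪ T3 := by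
    intro n hn
    rw [Finset.mem_union]
    by_cases h1 : n < w
    · left; exact Finset.mem_filter.2 ⟨hn, h1⟩
    · right; exact Finset.mem_filter.2 ⟨hn, by omega⟩
  have hc1 : (T1.card : ℝ) ≤ w := by
    have : T1 ⊆ range w := by
      intro n hn
      rw [Finset.mem_range]
      exact (Finset.mem_filter.1 hn).2
    have := Finset.card_le_card this
    rw [Finset.card_range] at this
    exact_mod_cast this
  have hc3 : (T3.card : ℝ) ≤ (((Finset.Ioc (0:ℤ) (0 + k)).filter (fun n => ∀ p ∈ S,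
        ¬ ((p : ℤ) ∣ 1 * n + 0 ∨ (p : ℤ) ∣ 1 * n + 2))).card : ℝ) := by
    have h1 : (T3.image (fun n : ℕ => (n : ℤ))).card = T3.card :=
      Finset.card_image_of_injective _ Nat.cast_injective
    rw [← h1]
    have h2 : T3.image (fun n : ℕ => (n : ℤ)) ⊆ (Finset.Ioc (0:ℤ) (0 + k)).filter (fun n => ∀ p ∈ S,
        ¬ ((p : ℤ) ∣ 1 * n + 0 ∨ (p : ℤ) ∣ 1 * n + 2)) := by
      intro x hx
      obtain ⟨n, hn, rfl⟩ := Finset.mem_image.1 hx
      obtain ⟨hnT, hwn⟩ := Finset.mem_filter.1 hn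
      rw [hT, Finset.mem_filter, Finset.mem_range] at hnT
      obtain ⟨hnk, hnp, hn2⟩ := hnT
      rw [Finset.mem_filter, Finset.mem_Ioc]
      refine ⟨⟨by exact_mod_cast hnp.pos, by omega⟩, ?_⟩
      intro p hp hor
      obtain ⟨hpp, hpw⟩ := hSp p hp
      rcases hor with h | h
      · rw [one_mul, add_zero] at h
        have h4 : p ∣ n := by exact_mod_cast h
        have := (Nat.prime_dvd_prime_iff_eq hpp hnp).1 h4
        omega
      · rw [one_mul] at h
        have h4 : p ∣ n + 2 := by exact_mod_cast h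
        have := (Nat.prime_dvd_prime_iff_eq hpp hn2).1 h4
        omega
    exact_mod_cast Finset.card_le_card h2
  have hcard : (T.card : ℝ) ≤ w + T3.card := by
    have h1 := Finset.card_le_card hTsub
    have h2 := Finset.card_union_le T1 T3
    have h4 : (T.card : ℝ) ≤ T1.card + T3.card := by
      exact_mod_cast h1.trans h2
    linarith
  -- the product
  have hlogk : 0 < Real.log k := Real.log_pos (by exact_mod_cast hk1)
  have hlogw : Real.log k / 1200 ≤ Real.log w := log_lev_ge (by omega)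
  have hlogw0 : 0 < Real.log w := Real.log_pos (by exact_mod_cast (by omega : 1 < w))
  have hprod : ∏ p ∈ S, (1 - (2:ℝ) / p) ≤ (1200 / c0 / Real.log k) ^ 2 := by
    have h1 : ∏ p ∈ S, (1 - (2:ℝ) / p) ≤ ∏ p ∈ S, (1 - (1:ℝ) / p) ^ 2 := by
      apply Finset.prod_le_prod
      · intro p hp
        have h2 : (3:ℝ) ≤ p := by
          have := hSP p hp
          exact_mod_cast (by omega : 3 ≤ p)
        rw [sub_nonneg, div_le_one (by linarith)]
        linarith
      · intro p hp
        have h2 : (0:ℝ) ≤ (1 / p) ^ 2 := by positivity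
        have h3 : (2:ℝ) / p = 2 * (1 / p) := by ring
        rw [h3]
        nlinarith
    rw [Finset.prod_pow] at h1
    refine h1.trans ?_
    have h2 := prod_S_le w P0 (by omega) S hS
    rw [← hc0] at h2
    have h3 : 0 ≤ ∏ p ∈ S, (1 - (1:ℝ) / p) :=
      Finset.prod_nonneg (fun p hp => (one_sub_inv_pos (hSp p hp).1).le)
    apply pow_le_pow_left₀ h3
    have h4 : 1 / Real.log w ≤ 1200 / Real.log k := by
      rw [div_le_div_iff₀ hlogw0 hlogk]
      linarith
    calc ∏ p ∈ S, (1 - (1:ℝ) / p) = (c0 * ∏ p ∈ S, (1 - (1:ℝ) / p)) / c0 := by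
          field_simp
      _ ≤ (1200 / Real.log k) / c0 := by
          apply div_le_div_of_nonneg_right (h2.trans h4) hc0pos.le
      _ = 1200 / c0 / Real.log k := by ring
  have hkr : (0:ℝ) < k := by exact_mod_cast hk0
  have hS3 : (T3.card : ℝ) ≤ k * (1200 / c0 / Real.log k) ^ 2 * 3 + Real.sqrt k := by
    have e1 : (w : ℝ) ^ (8 * 31 + 12) ≤ Real.sqrt k := lev_pow_sqrt k (by omega)
    have h0 : 0 ≤ ∏ p ∈ S, (1 - (2:ℝ) / p) := by
      apply Finset.prod_nonneg
      intro p hp
      have h2 : (3:ℝ) ≤ p := by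
        have := hSP p hp
        exact_mod_cast (by omega : 3 ≤ p)
      rw [sub_nonneg, div_le_one (by linarith)]
      linarith
    have e2 : (k : ℝ) * (∏ p ∈ S, (1 - (2:ℝ) / p)) * Real.exp (epsB 31)
        ≤ k * (1200 / c0 / Real.log k) ^ 2 * 3 := by
      apply mul_le_mul _ exp_epsB_31 (Real.exp_pos _).le (by positivity)
      exact mul_le_mul_of_nonneg_left hprod hkr.le
    exact le_trans (hc3.trans (le_of_eq (by congr!))) (hsieve.trans (add_le_add e2 e1))
  have hws : (w : ℝ) ≤ Real.sqrt k := by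
    refine le_trans ?_ (lev_pow_sqrt k (by omega))
    rw [← hwdef]
    have : (1:ℝ) ≤ w := by exact_mod_cast (by omega : 1 ≤ w)
    exact le_self_pow₀ this (by norm_num)
  have hsq : Real.sqrt k ≤ 16 * k / Real.log k ^ 2 := by
    rw [le_div_iff₀ (by positivity)]
    have h1 := log_sq_le k (by exact_mod_cast hk0)
    have h2 : Real.sqrt k * Real.sqrt k = k := Real.mul_self_sqrt hkr.le
    have h3 : 0 ≤ Real.sqrt k := Real.sqrt_nonneg _
    nlinarith
  have hkl : 0 ≤ 16 * (k:ℝ) / Real.log k ^ 2 := by positivity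
  calc (T.card : ℝ) ≤ 2 * Real.sqrt k + k * (1200 / c0 / Real.log k) ^ 2 * 3 := by linarith
    _ ≤ 3 * (16 * k / Real.log k ^ 2) + k * (1200 / c0 / Real.log k) ^ 2 * 3 := by linarith
    _ = (3 * (1200 / c0) ^ 2 + 48) * k / Real.log k ^ 2 := by
        field_simp
        ring

end Pool.Agent.Helper99_TwinIdx
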